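import Pool.Agent.MP_c1891a_nt.H79.Spec

/-
An algebraic number of small degree is not too close to a root of unity.
-/

namespace Pool.Agent.MP_c1891a_nt.H14

open Finset Polynomial Pool.Agent.MP_c1891a_nt.H79

/-- the Liouville inequality for a sum of monomials. -/
lemma liou_sum (h1 : SLiou) {ι : Type} (I : Finset ι) (s : ι → ℤ) (e : ι → ℕ) (f : ℤ[X]) (α : ℂ)
    (d E : ℕ) (H L : ℝ) (hf : f ≠ 0) (hα : aeval α f = 0) (hd : f.natDegree ≤ d)
    (hH : ∀ n, |(f.coeff n : ℝ)| ≤ H) (he : ∀ k ∈ I, e k ≤ E)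
    (hL : ∑ k ∈ I, |(s k : ℝ)| ≤ L) (hne : ∑ k ∈ I, (s k : ℂ) * α ^ e k ≠ 0) :
    1 ≤ ‖∑ k ∈ I, (s k : ℂ) * α ^ e k‖ * (L * (2 * H ^ 2) ^ E) ^ d := by
  have ev : aeval α (∑ k ∈ I, monomial (e k) (s k)) = ∑ k ∈ I, (s k : ℂ) * α ^ e k := by
    simp [map_sum, aeval_monomial]
  rw [← ev] at hne ⊢
  refine h1 f _ α d E H L hf hα hd hH
    (natDegree_sum_le_of_forall_le _ _ fun k hk => (natDegree_monomial_le _).trans (he k hk))
    (le_trans ?_ hL) hne
  calc ∑ n ∈ range (E + 1), |(((∑ k ∈ I, monomial (e k) (s k)).coeff n : ℤ) : ℝ)|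
      ≤ ∑ n ∈ range (E + 1), ∑ k ∈ I, if e k = n then |(s k : ℝ)| else 0 := by
        refine sum_le_sum fun n _ => ?_
        rw [finsetSum_coeff, Int.cast_sum]
        refine (abs_sum_le_sum_abs _ _).trans (sum_le_sum fun k _ => ?_)
        rw [coeff_monomial]
        split_ifs <;> simp
    _ = ∑ k ∈ I, |(s k : ℝ)| := by
        rw [sum_comm]
        refine sum_congr rfl fun k hk => ?_
        rw [sum_ite_eq, if_pos (mem_range.2 (Nat.lt_succ_of_le (he k hk)))]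

/-- `a` is nonnegative and at most `exp b`. -/
def B (a b : ℝ) : Prop := 0 ≤ a ∧ a ≤ Real.exp b

lemma B.mul {a b c d : ℝ} (h : B a b) (h' : B c d) : B (a * c) (b + d) :=
  ⟨mul_nonneg h.1 h'.1, Real.exp_add b d ▸ mul_le_mul h.2 h'.2 h'.1 (Real.exp_pos _).le⟩

lemma B.pow {a b : ℝ} (h : B a b) (k : ℕ) : B (a ^ k) (k * b) :=
  ⟨pow_nonneg h.1 k, Real.exp_nat_mul b k ▸ pow_le_pow_left₀ h.1 h.2 k⟩

lemma B.mono {a a' b b' : ℝ} (h : B a b) (h0 : 0 ≤ a') (h1 : a' ≤ a) (h2 : b ≤ b') : B a' b' :=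
  ⟨h0, h1.trans (h.2.trans (Real.exp_le_exp.2 h2))⟩

lemma B.self {a : ℝ} (h : 0 ≤ a) : B a a := ⟨h, by linarith [Real.add_one_le_exp a]⟩

lemma B.two : B 2 1 := ⟨by norm_num, by linarith [Real.add_one_le_exp 1]⟩

lemma B.exp (a : ℝ) : B (Real.exp a) a := ⟨(Real.exp_pos a).le, le_rfl⟩

lemma pow_sub (α ω : ℂ) (hω : ‖ω‖ = 1) (h : ‖α - ω‖ ≤ 1) (n : ℕ) :
    ‖α ^ n - ω ^ n‖ + ‖α - ω‖ ≤ 2 ^ n * ‖α - ω‖ := by
  have a : ‖α‖ ≤ 2 := by
    have := norm_add_le (α - ω) ω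
    rw [sub_add_cancel] at this
    linarith
  induction n with
  | zero => simp
  | succ n ih =>
    have e : α ^ (n + 1) - ω ^ (n + 1) = α * (α ^ n - ω ^ n) + ω ^ n * (α - ω) := by ring
    have := norm_add_le (α * (α ^ n - ω ^ n)) (ω ^ n * (α - ω))
    rw [norm_mul, norm_mul, norm_pow, hω, one_pow, one_mul, ← e] at this
    have := mul_le_mul_of_nonneg_right a (norm_nonneg (α ^ n - ω ^ n))
    rw [pow_succ (2 : ℝ)]
    linarith

lemma num_small {y η : ℝ} (Y N : ℕ) (hy : y = Y) (h : 300 ≤ y) (hN : (N : ℝ) ≤ y ^ 6)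
    (hη : η < Real.exp (-y ^ 14))
    (h1 : 1 ≤ 2 ^ N * η * (2 * (2 * ((2 : ℝ) ^ Y) ^ 2) ^ N) ^ Y) : False := by
  have b := (B.two.pow N).mul ((B.two.mul ((B.two.mul ((B.two.pow Y).pow 2)).pow N)).pow Y)
  rw [← hy] at b
  have y1 : 1 ≤ y := by linarith
  have n0 : (0 : ℝ) ≤ N := N.cast_nonneg
  have p : ∀ i j : ℕ, i ≤ j → y ^ i ≤ y ^ j := fun i j e => pow_le_pow_right₀ y1 e
  have e : (N : ℝ) * 1 + y * (1 + N * (1 + (2 : ℕ) * (y * 1))) ≤ y ^ 14 := by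
    have a1 : y * (N * (1 + 2 * y)) ≤ y * (y ^ 6 * (3 * y)) := by gcongr; linarith
    have a2 : y * (y ^ 6 * (3 * y)) = 3 * y ^ 8 := by ring
    have a3 : 5 * y ^ 13 ≤ y ^ 14 := by
      rw [pow_succ y 13]
      nlinarith [pow_nonneg (by linarith : 0 ≤ y) 13]
    have := p 6 13 (by norm_num)
    have := p 8 13 (by norm_num)
    have := p 1 13 (by norm_num)
    push_cast
    nlinarith
  have c := (b.mono b.1 le_rfl e).2
  have d : Real.exp (-y ^ 14) * Real.exp (y ^ 14) = 1 := by rw [← Real.exp_add]; simp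
  have g := Real.exp_pos (y ^ 14)
  by_cases z : 0 ≤ η
  · have := mul_le_mul_of_nonneg_left c z
    have := mul_lt_mul_of_pos_right hη g
    nlinarith
  · have := mul_nonpos_of_nonpos_of_nonneg (not_le.1 z).le b.1
    nlinarith

lemma num_big {y Δ : ℝ} (Y N K L R S : ℕ) (hy : y = Y) (h : 300 ≤ y) (hN : N ≤ 2 ^ Y)
    (hK : (K : ℝ) = y ^ 9) (hL : (L : ℝ) = y ^ 3) (hR : (R : ℝ) = y ^ 6)
    (hS : (S : ℝ) = y ^ 3 + y ^ 6)
    (h1 : 1 ≤ Δ * (((K * L).factorial * ((N * (R + S) : ℝ) ^ K) ^ (K * L)) *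
      (2 * ((2 : ℝ) ^ Y) ^ 2) ^ (K * L * (L * S))) ^ Y)
    (h2 : Real.exp ((K * L : ℝ) * (K * L - 1) / 2) * Δ ≤ (K * L).factorial *
      (2 * (3 * N * (R + S) : ℝ) ^ K * Real.exp (20 * L * (R + S))) ^ (K * L)) : False := by
  have y0 : 0 ≤ y := by linarith
  have y1 : 1 ≤ y := by linarith
  have p : ∀ i j : ℕ, i ≤ j → y ^ i ≤ y ^ j := fun i j e => pow_le_pow_right₀ y1 e
  have hn : ((K * L : ℕ) : ℝ) = y ^ 12 := by rw [Nat.cast_mul, hK, hL]; ring
  have bf : B (K * L).factorial (y ^ 12 * (12 * y)) := by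
    have := ((B.self y0).pow 12).pow (K * L)
    rw [hn] at this
    refine this.mono (Nat.cast_nonneg _) ?_ (by push_cast; rfl)
    rw [← hn]
    exact_mod_cast Nat.factorial_le_pow _
  have bN : B N y := by
    have := B.two.pow Y
    rw [← hy] at this
    exact this.mono (Nat.cast_nonneg _) (by exact_mod_cast hN) (by linarith)
  have rs : (R + S : ℝ) ≤ 3 * y ^ 6 := by
    rw [hR, hS]
    linarith [p 3 6 (by norm_num)]
  have r0 : (0 : ℝ) ≤ R + S := by positivity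
  have b3 : B (3 * N * (R + S)) (8 * y) := by
    refine (((B.self y0).mul bN).mul ((B.self y0).pow 6)).mono (by positivity) ?_
      (by push_cast; linarith)
    have a1 : 3 * (N : ℝ) * (R + S) ≤ 3 * N * (3 * y ^ 6) := by gcongr
    have a2 : 9 * ((N : ℝ) * y ^ 6) ≤ y * (N * y ^ 6) := by gcongr; linarith
    linarith
  have b1 : B (N * (R + S)) (8 * y) :=
    b3.mono (by positivity) (by nlinarith [mul_nonneg bN.1 r0]) le_rfl
  have c1 := ((bf.mul ((b1.pow K).pow (K * L))).mul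
    ((B.two.mul ((B.two.pow Y).pow 2)).pow (K * L * (L * S)))).pow Y
  have c2 := bf.mul (((B.two.mul (b3.pow K)).mul (B.exp (20 * L * (R + S)))).pow (K * L))
  have c3 := c2.mul c1
  have e1 : ((K * L * (L * S) : ℕ) : ℝ) = y ^ 12 * (y ^ 3 * (y ^ 3 + y ^ 6)) := by
    rw [Nat.cast_mul, hn, Nat.cast_mul, hL, hS]
  have e2 : (K * L : ℝ) = y ^ 12 := by rw [← hn, Nat.cast_mul]
  have k := (mul_le_mul_of_nonneg_left h1 (Real.exp_pos ((K * L : ℝ) * (K * L - 1) / 2)).le).trans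
    ((mul_assoc _ _ _).symm.le.trans ((mul_le_mul_of_nonneg_right h2 c1.1).trans c3.2))
  rw [mul_one, Real.exp_le_exp, e2, e1, hn, hK, hL, hR, hS, ← hy] at k
  have q : 0 < y ^ 12 := by positivity
  have k' : (y ^ 12 - 1) / 2 ≤ 12 * y + (1 + 8 * y ^ 10 + 20 * y ^ 6 + 40 * y ^ 9) +
      (12 * y ^ 2 + 8 * y ^ 11 + (y ^ 7 + y ^ 10 + 2 * y ^ 8 + 2 * y ^ 11)) := by
    refine le_of_mul_le_mul_left ?_ q
    push_cast at k
    linarith
  have a3 : 300 * y ^ 11 ≤ y ^ 12 := by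
    rw [pow_succ y 11]
    nlinarith [pow_nonneg y0 11]
  have := p 0 11 (by norm_num)
  have := p 1 11 (by norm_num)
  have := p 2 11 (by norm_num)
  have := p 6 11 (by norm_num)
  have := p 7 11 (by norm_num)
  have := p 8 11 (by norm_num)
  have := p 9 11 (by norm_num)
  have := p 10 11 (by norm_num)
  rw [pow_zero] at *
  rw [pow_one] at *
  linarith

lemma num_eta {y η : ℝ} (K L S : ℕ) (h : 300 ≤ y) (hK : (K : ℝ) = y ^ 9) (hL : (L : ℝ) = y ^ 3)
    (hS : (S : ℝ) = y ^ 3 + y ^ 6) (h0 : 0 ≤ η) (hη : η ≤ Real.exp (-y ^ 14)) :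
    Real.exp (K * L) * (2 * L * S * η) ≤ 1 := by
  have y0 : 0 ≤ y := by linarith
  have y1 : 1 ≤ y := by linarith
  have p : ∀ i j : ℕ, i ≤ j → y ^ i ≤ y ^ j := fun i j e => pow_le_pow_right₀ y1 e
  have b := (B.exp (K * L)).mul ((B.self (by positivity : (0 : ℝ) ≤ 2 * L * S)).mul ⟨h0, hη⟩)
  refine (b.mono b.1 le_rfl (b' := 0) ?_).2.trans Real.exp_zero.le
  rw [hK, hL, hS]
  have a3 : 300 * y ^ 13 ≤ y ^ 14 := by
    rw [pow_succ y 13]
    nlinarith [pow_nonneg y0 13]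
  have := p 12 13 (by norm_num)
  have := p 6 13 (by norm_num)
  have := p 9 13 (by norm_num)
  have := pow_nonneg y0 13
  linarith

/-- the interpolation determinant as a sum of monomials. -/
lemma det_eq (α : ℂ) (N m : ℕ) {K L R S : ℕ} (f : Fin K × Fin L → Fin R × Fin S) :
    (IM α N m f).det = ∑ σ : Equiv.Perm (Fin K × Fin L),
      ((Equiv.Perm.sign σ * ∏ j, ((((f j).1 : ℕ) * N + ((f j).2 : ℕ) * m : ℕ) : ℤ) ^ ((σ j).1 : ℕ)
        : ℤ) : ℂ) * α ^ ∑ j, ((σ j).2 : ℕ) * ((f j).2 : ℕ) := by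
  rw [Matrix.det_apply']
  refine sum_congr rfl fun σ _ => ?_
  simp only [IM, Matrix.of_apply, prod_mul_distrib, prod_pow_eq_pow_sum]
  push_cast
  ring

theorem stl (h1 : SLiou) (h2 : SZL) (h3 : SUp) : STL := by
  refine ⟨300, fun Y hY f α ω N' hf hd hc hα hu hN' hN2 hω => ?_⟩
  by_contra hη
  rw [not_le] at hη
  have y3 : (300 : ℝ) ≤ Y := by exact_mod_cast hY
  have hH : ∀ n, |(f.coeff n : ℝ)| ≤ 2 ^ Y := fun n => by exact_mod_cast hc n
  have n1 : ‖ω‖ = 1 := Complex.norm_eq_one_of_pow_eq_one hω hN'.ne'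
  have e1 : Real.exp (-(Y : ℝ) ^ 14) ≤ 1 := Real.exp_le_one_iff.2 (by
    have : (0 : ℝ) ≤ (Y : ℝ) ^ 14 := by positivity
    linarith)
  have a0 : α ≠ 0 := by
    rintro rfl
    rw [zero_sub, norm_neg, n1] at hη
    linarith
  obtain ⟨N, hp, hN, hN0⟩ : ∃ N, IsPrimitiveRoot ω N ∧ N ≤ 2 ^ Y ∧ 0 < N :=
    have d := orderOf_dvd_of_pow_eq_one hω
    ⟨_, IsPrimitiveRoot.orderOf ω, (Nat.le_of_dvd hN' d).trans hN2, Nat.pos_of_dvd_of_pos d hN'⟩
  rcases le_total N (Y ^ 6) with c | c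
  · have e : ∑ k : Bool, (((if k then 1 else -1 : ℤ)) : ℂ) * α ^ (if k then N else 0) =
        α ^ N - ω ^ N := by
      rw [hp.pow_eq_one]
      simp
      ring
    have := liou_sum h1 univ (fun k : Bool => if k then 1 else -1) (fun k => if k then N else 0)
      f α Y N (2 ^ Y) 2 hf hα hd hH (fun k _ => by split_ifs <;> omega) (by simp; norm_num)
      (by rw [e, hp.pow_eq_one]; exact sub_ne_zero.2 (hu N hN0))
    rw [e] at this
    refine num_small Y N rfl y3 (by exact_mod_cast c) hη (this.trans ?_)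
    have := pow_sub α ω n1 (hη.le.trans e1) N
    have := norm_nonneg (α - ω)
    gcongr
    linarith
  · obtain ⟨m, hm, co, rfl⟩ := (Complex.isPrimitiveRoot_iff ω N hN0.ne').1 hp
    have Y0 : 0 < Y := by omega
    obtain ⟨g, hg⟩ := h2 α N m (Y ^ 9) (Y ^ 3) (Y ^ 6) (Y ^ 6) a0 hu co c (by
      have : Y ^ 6 * Y ^ 6 = Y ^ 9 * Y ^ 3 := by ring
      rw [this]
      exact Nat.mul_lt_mul_of_pos_right (Nat.sub_lt (by positivity) one_pos) (by positivity))
    generalize hK : Y ^ 9 = K at g hg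
    generalize hS : Y ^ 3 + Y ^ 6 = S at g hg
    generalize hL : Y ^ 3 = L at g hg
    generalize hR : Y ^ 6 = R at g hg
    have hK' : (K : ℝ) = (Y : ℝ) ^ 9 := by rw [← hK]; push_cast; rfl
    have hL' : (L : ℝ) = (Y : ℝ) ^ 3 := by rw [← hL]; push_cast; rfl
    have hR' : (R : ℝ) = (Y : ℝ) ^ 6 := by rw [← hR]; push_cast; rfl
    have hS' : (S : ℝ) = (Y : ℝ) ^ 3 + (Y : ℝ) ^ 6 := by rw [← hS]; push_cast; rfl
    have up := h3 α N m K L R S g _ hN0 hm.le (by rw [mul_div_assoc])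
      (num_eta K L S y3 hK' hL' hS' (norm_nonneg _) hη.le)
    refine num_big Y N K L R S rfl y3 hN hK' hL' hR' hS' ?_ up
    rw [det_eq] at hg ⊢
    refine liou_sum h1 univ _ _ f α Y _ (2 ^ Y) _ hf hα hd hH (fun σ _ => ?_) ?_ hg
    · refine (sum_le_card_nsmul _ _ (L * S) fun j _ =>
        Nat.mul_le_mul (σ j).2.2.le (g j).2.2.le).trans ?_
      simp
    · refine (sum_le_card_nsmul _ _ (((N * (R + S) : ℝ) ^ K) ^ (K * L)) fun σ _ => ?_).trans ?_
      · have s : |((Equiv.Perm.sign σ : ℤ) : ℝ)| = 1 := by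
          rcases Int.units_eq_one_or (Equiv.Perm.sign σ) with h | h <;> simp [h]
        have o : (1 : ℝ) ≤ N * (R + S) := by
          have : 1 ≤ N * (R + S) := Nat.mul_pos hN0 (by rw [← hR]; positivity)
          exact_mod_cast this
        rw [Int.cast_mul, abs_mul, s, one_mul, Int.cast_prod, abs_prod]
        refine (prod_le_prod (fun _ _ => abs_nonneg _)
          (g := fun _ => (N * (R + S) : ℝ) ^ K) fun j _ => ?_).trans (by simp)
        rw [Int.cast_pow, abs_pow, Int.cast_natCast, Nat.abs_cast]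
        refine (pow_le_pow_left₀ (Nat.cast_nonneg _) ?_ _).trans
          (pow_le_pow_right₀ o (σ j).1.2.le)
        have : ((g j).1 : ℕ) * N + ((g j).2 : ℕ) * m ≤ N * (R + S) := by
          have := Nat.mul_le_mul (g j).1.2.le (le_refl N)
          have := Nat.mul_le_mul (g j).2.2.le hm.le
          nlinarith
        exact_mod_cast this
      · simp [Fintype.card_perm]

end Pool.Agent.MP_c1891a_nt.H14
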