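import Pool.Agent.MP_c1891a_nt.H43.Spec3
import Pool.Agent.MP_c1891a_nt.H22.OneVar

/-
Row OneC: roots of unity `ω` with `(ω - ρ)⁻¹` integral have bounded order.
-/

namespace Pool.Agent.MP_c1891a_nt.H43

open Finset Polynomial

lemma onec_ne {T : ℤ[X]} (h : T ≠ 0) : cx T ≠ 0 :=
  (Polynomial.map_ne_zero_iff (Int.castRingHom ℂ).injective_int).2 h

lemma onec_deg {G : ℤ[X]} (hG : Irreducible G) (n : ℕ) : ∀ T : ℤ[X], T.natDegree = n → T ≠ 0 →
    (∀ α : ℂ, aeval α T = 0 → aeval α G = 0) →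
    (n : ℝ) * (cx G).logMahlerMeasure ≤ G.natDegree * (cx T).logMahlerMeasure := by
  induction n using Nat.strong_induction_on with
  | _ n ih =>
    intro T hn T0 hr
    rcases Nat.eq_zero_or_pos n with rfl | hpos
    · rw [Nat.cast_zero, zero_mul, logMahlerMeasure_eq_log_MahlerMeasure]
      exact mul_nonneg (Nat.cast_nonneg _) (Real.log_nonneg (one_le_mahlerMeasure_of_ne_zero T0))
    · have hinj := (Int.castRingHom ℂ).injective_int
      obtain ⟨α, hα⟩ := IsAlgClosed.exists_root (cx T) (by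
        rw [cx, degree_map_eq_of_injective hinj, degree_eq_natDegree T0, hn]
        exact_mod_cast hpos.ne')
      have hα' : aeval α T = 0 := by rw [← H91.two_eval_map]; exact hα
      obtain ⟨T', rfl⟩ := H91.two_conj hG (hr α hα') hα'
      have T0' := right_ne_zero_of_mul T0
      have hd : 0 < G.natDegree := natDegree_pos_of_aeval_root hG.ne_zero (hr α hα')
        fun x hx => by simpa using hx
      rw [natDegree_mul hG.ne_zero T0'] at hn
      have := ih T'.natDegree (by omega) T' rfl T0' fun β hβ => hr β (by rw [map_mul, hβ, mul_zero])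
      have e : cx (G * T') = cx G * cx T' := Polynomial.map_mul _
      rw [e, logMahlerMeasure_mul_eq_add_logMahlerMeasure (e ▸ onec_ne T0), ← hn]
      push_cast
      linarith

lemma onec_prod {ι : Type} (s : Finset ι) (p : ι → ℂ[X]) (h : ∀ i ∈ s, p i ≠ 0) :
    (∏ i ∈ s, p i).logMahlerMeasure = ∑ i ∈ s, (p i).logMahlerMeasure := by
  classical
  induction s using Finset.induction_on with
  | empty => simp
  | insert a s ha ih =>
    have h' : ∀ i ∈ s, p i ≠ 0 := fun i hi => h i (mem_insert_of_mem hi)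
    rw [prod_insert ha, sum_insert ha, logMahlerMeasure_mul_eq_add_logMahlerMeasure
      (mul_ne_zero (h a (mem_insert_self a s)) (prod_ne_zero_iff.2 h')), ih h']

lemma onec_class (S Γ : Finset ℕ) (g : ℕ) (hg : 0 < g) (hΓ : Γ ⊆ S)
    (hc : ∀ j ∈ Γ, ∀ j' ∈ S, j ≡ j' [MOD g] → j' ∈ Γ) (F : ℕ → ℝ) (B : ℝ) (hB : 0 ≤ B)
    (h : ∀ i, ∑ j ∈ S.filter fun j => j % g = i, F j ≤ B) : ∑ j ∈ Γ, F j ≤ g * B := by
  rw [← sum_fiberwise_of_maps_to (s := Γ) (t := range g) (g := fun j => j % g)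
    (fun j _ => mem_range.2 (Nat.mod_lt j hg))]
  refine (sum_le_card_nsmul _ _ B fun i _ => ?_).trans (by rw [card_range, nsmul_eq_mul])
  rcases (Γ.filter fun j => j % g = i).eq_empty_or_nonempty with e | ⟨j, hj⟩
  · rw [e, sum_empty]
    exact hB
  · rw [mem_filter] at hj
    have e : (Γ.filter fun j => j % g = i) = S.filter fun j => j % g = i := by
      ext j'
      simp only [mem_filter]
      exact ⟨fun h' => ⟨hΓ h'.1, h'.2⟩, fun h' => ⟨hc j hj.1 j' h'.1 (hj.2.trans h'.2.symm), h'.2⟩⟩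
    rw [e]
    exact h i

lemma onec_aeval {K F : Type} [Field K] [Field F] (σ : K →+* F) (x : K) (G : ℤ[X]) :
    aeval (σ x) G = σ (aeval x G) := aeval_algHom_apply σ.toIntAlgHom x G

/-- the inequality given by the norm of `β (X - ρ)`. -/
lemma onec_norm (h5 : SNormP) {G : ℤ[X]} (hG : Irreducible G) (L : Type) [Field L] [NumberField L]
    (ξ ρ : L) (hne : ξ ≠ ρ) (hξ : IsIntegral ℤ ξ) (hβ : IsIntegral ℤ (ξ - ρ)⁻¹)
    (hρ : aeval ρ G = 0) : (Module.finrank ℚ L : ℝ) * (cx G).logMahlerMeasure ≤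
      G.natDegree * ∑ σ : L →+* ℂ, (Real.posLog ‖σ ρ‖ - Real.log ‖σ ξ - σ ρ‖) := by
  have h0 : ξ - ρ ≠ 0 := sub_ne_zero.2 hne
  have hβρ : IsIntegral ℤ ((ξ - ρ)⁻¹ * ρ) := by
    have : (ξ - ρ)⁻¹ * ρ = (ξ - ρ)⁻¹ * ξ - 1 := by field_simp; ring
    rw [this]
    exact (hβ.mul hξ).sub isIntegral_one
  obtain ⟨T, hT⟩ := (h5 L).2.1 (C (ξ - ρ)⁻¹ * (X - C ρ)) (fun i => by
    rw [mul_sub, ← C_mul, coeff_sub, coeff_C_mul_X, coeff_C]
    refine IsIntegral.sub ?_ ?_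
    · split_ifs
      · exact hβ
      · exact isIntegral_zero
    · split_ifs
      · exact hβρ
      · exact isIntegral_zero)
  simp only [Polynomial.map_mul, Polynomial.map_sub, map_C, map_X] at hT
  have hσ : ∀ σ : L →+* ℂ, σ (ξ - ρ)⁻¹ ≠ 0 := fun σ => (map_ne_zero σ).2 (inv_ne_zero h0)
  have hne' : ∀ σ : L →+* ℂ, C (σ (ξ - ρ)⁻¹) * (X - C (σ ρ)) ≠ 0 := fun σ =>
    mul_ne_zero (C_ne_zero.2 (hσ σ)) (X_sub_C_ne_zero _)
  have T0 : T ≠ 0 := by
    rintro rfl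
    exact prod_ne_zero_iff.2 (fun σ _ => hne' σ) (by rw [← hT, cx, Polynomial.map_zero])
  have hd : T.natDegree = Module.finrank ℚ L := by
    rw [← natDegree_map_eq_of_injective (Int.castRingHom ℂ).injective_int, ← cx, hT,
      natDegree_prod _ _ fun σ _ => hne' σ, ← NumberField.Embeddings.card L ℂ, ← card_univ,
      card_eq_sum_ones]
    exact sum_congr rfl fun σ _ => by rw [natDegree_C_mul (hσ σ), natDegree_X_sub_C]
  have := onec_deg hG _ T hd T0 fun α hα => by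
    rw [← H91.two_eval_map, ← cx, hT, eval_prod, prod_eq_zero_iff] at hα
    obtain ⟨σ, -, hα⟩ := hα
    rw [eval_mul, eval_C, eval_sub, eval_X, eval_C, mul_eq_zero, sub_eq_zero] at hα
    rw [hα.resolve_left (hσ σ), onec_aeval, hρ, map_zero]
  rw [hT, onec_prod _ _ fun σ _ => hne' σ] at this
  refine this.trans (le_of_eq ?_)
  congr 1
  refine sum_congr rfl fun σ _ => ?_
  rw [logMahlerMeasure_C_mul (hσ σ) (X_sub_C_ne_zero _), logMahlerMeasure_X_sub_C, map_inv₀,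
    norm_inv, Real.log_inv, map_sub]
  ring

theorem sOneC (h1 : SRoot) (h2 : SArith) (h3 : H79.STL) (h4 : SEmb) (h5 : SNormP) : SOneC := by
  intro ρ hρ hT halg
  obtain ⟨G, hG, hr⟩ := (IsFractionRing.isAlgebraic_iff ℤ ℚ ℂ).2 halg
  obtain ⟨f, hf, -, hfρ⟩ := H91.two_irr hG hr
  have f0 : f ≠ 0 := hf.ne_zero
  have hnt : ∀ α : ℂ, aeval α f = 0 → ∀ n : ℕ, 0 < n → α ^ n ≠ 1 := by
    intro α hα n hn e
    obtain ⟨q, hq⟩ := H91.two_conj (G := X ^ n - 1) hf hα (by simp [e])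
    refine hT ⟨n, hn, ?_⟩
    have := congrArg (aeval ρ) hq
    rw [map_mul, hfρ, zero_mul] at this
    simpa [sub_eq_zero] using this
  have hM : 0 < (cx f).logMahlerMeasure := by
    rw [logMahlerMeasure_eq_log_MahlerMeasure]
    refine Real.log_pos (lt_of_le_of_ne (one_le_mahlerMeasure_of_ne_zero f0) fun e => hT ?_)
    exact pow_eq_one_of_mahlerMeasure_eq_one e.symm hρ (mem_aroots.2 ⟨f0, hfρ⟩)
  obtain ⟨Y₀, hY₀⟩ := h3
  obtain ⟨H, hH⟩ : ∃ H : ℕ, ∀ n, |f.coeff n| ≤ H := by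
    refine ⟨f.support.sup fun n => (f.coeff n).natAbs, fun n => ?_⟩
    by_cases hn : n ∈ f.support
    · rw [← Int.natCast_natAbs]
      exact_mod_cast Finset.le_sup (f := fun n => (f.coeff n).natAbs) hn
    · rw [notMem_support_iff.1 hn]
      simp
  obtain ⟨K, _, _, ι₀, c', hc'⟩ := num_field (univ : Finset Unit) (fun _ => ρ) fun _ _ => halg
  obtain ⟨ρ', hρ'⟩ : ∃ ρ', ι₀ ρ' = ρ := ⟨c' (), hc' () (mem_univ _)⟩
  have hfρ' : aeval ρ' f = 0 := ι₀.injective (by rw [← onec_aeval, hρ', hfρ, map_zero])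
  obtain ⟨c, hc0, hc⟩ := h4 K ι₀
  obtain ⟨N₁, hN₁⟩ := h2 (1 / 10) (by norm_num)
  obtain ⟨N₂, hN₂⟩ := onevar_num (f.natDegree * (Fintype.card (K →+* ℂ) * c))
    (Y₀ + f.natDegree + H) _ hM
  refine ⟨max N₁ N₂, fun ω hω hu => ?_⟩
  obtain ⟨n, hn, hωn⟩ := hω
  obtain ⟨N, hN, hprim⟩ := IsPrimitiveRoot.exists_pos hωn hn.ne'
  refine ⟨N, hN, ?_, hprim.pow_eq_one⟩
  by_contra hcon
  have hcon : max N₁ N₂ ≤ N := (not_le.1 hcon).le
  obtain ⟨a1, a2⟩ := hN₁ N ((le_max_left _ _).trans hcon)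
  have a3 := hN₂ N ((le_max_right _ _).trans hcon)
  obtain ⟨Y, hY⟩ : ∃ Y : ℕ, Y = Y₀ + f.natDegree + H + Nat.log 2 N + 1 := ⟨_, rfl⟩
  rw [← hY] at a3
  have hN' : (1 : ℝ) ≤ N := by exact_mod_cast hN
  obtain ⟨d, hd⟩ : ∃ d : ℝ, d = Real.exp (-(Y : ℝ) ^ 14) / 7 := ⟨_, rfl⟩
  have hE0 := Real.exp_pos (-(Y : ℝ) ^ 14)
  have hE1 : Real.exp (-(Y : ℝ) ^ 14) ≤ 1 :=
    Real.exp_le_one_iff.2 (neg_nonpos.2 (by positivity))
  have hlog : Real.log (3 * N / d) = Real.log (21 * N) + (Y : ℝ) ^ 14 := by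
    have : 3 * (N : ℝ) / d = 21 * N * Real.exp ((Y : ℝ) ^ 14) := by
      rw [hd, Real.exp_neg]
      field_simp
      norm_num
    rw [this, Real.log_mul (by positivity) (Real.exp_pos _).ne', Real.log_exp]
  have hL0 : 0 ≤ Real.log (21 * N) + (Y : ℝ) ^ 14 :=
    add_nonneg (Real.log_nonneg (by linarith)) (by positivity)
  have hper : ∀ α : ℂ, aeval α f = 0 → ∀ g : ℕ, g ∣ N → ∀ i,
      ∑ j ∈ (Cop N).filter fun j => j % g = i, (Real.posLog ‖α‖ - Real.log ‖ω ^ j - α‖) ≤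
        N.divisors.card * (Real.log (21 * N) + (Y : ℝ) ^ 14) := by
    intro α hα g hg i
    have hfar : d * max 1 ‖α‖ ^ N ≤ ‖α ^ N - ((1 : ℝ) : ℂ) ^ N‖ := by
      rw [Complex.ofReal_one, one_pow]
      by_contra hn'
      obtain ⟨η, e1, e2⟩ := H88.near α N hN d (by linarith) (not_le.1 hn').le
      have := hY₀ Y (by omega) f α η N f0 (by omega)
        (fun i => (hH i).trans (by
          have : H ≤ 2 ^ Y := (Nat.lt_two_pow_self (n := H)).le.trans
            (Nat.pow_le_pow_right (by norm_num) (by omega))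
          exact_mod_cast this))
        hα (hnt α hα) hN
        ((Nat.lt_pow_succ_log_self (by norm_num) N).le.trans
          (Nat.pow_le_pow_right (by norm_num) (by omega))) e1
      linarith
    have := h1 N g i ω α 1 d hN hg hprim le_rfl (by simp) (by linarith) (by linarith) hfar
    simp only [Complex.ofReal_one, mul_one] at this
    rw [← Real.posLog_eq_log_max_one (norm_nonneg α), hlog] at this
    rw [sum_sub_distrib, sum_const, nsmul_eq_mul]
    linarith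
  obtain ⟨L, _, _, _, ι, ξ', Γ, e1, e2, e3, e4, e5, e6⟩ := hc N ω hN hprim
  have hn1 := onec_norm h5 hf L ξ' (algebraMap K L ρ')
    (fun e => hT ⟨n, hn, by rw [← hρ', ← e1, ← e, e2, hωn]⟩)
    ((int_map ι).1 (e2 ▸ IsIntegral.of_pow hn (hωn ▸ isIntegral_one)))
    ((int_map ι).1 (by rwa [map_inv₀, map_sub, e1, e2, hρ']))
    (by rw [onec_aeval, hfρ', map_zero])
  have hn2 := e6 fun τ x => Real.posLog ‖τ ρ'‖ - Real.log ‖x - τ ρ'‖
  simp only [RingHom.comp_apply] at hn2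
  rw [hn2] at hn1
  obtain ⟨B, hB⟩ : ∃ B : ℝ, B = N.divisors.card * (Real.log (21 * N) + (Y : ℝ) ^ 14) := ⟨_, rfl⟩
  have hB0 : 0 ≤ B := hB ▸ mul_nonneg (Nat.cast_nonneg _) hL0
  have hn3 : ∑ τ : K →+* ℂ, ∑ j ∈ Γ τ, (Real.posLog ‖τ ρ'‖ - Real.log ‖ω ^ j - τ ρ'‖) ≤
      Fintype.card (K →+* ℂ) * (c * B) := by
    refine (sum_le_card_nsmul _ _ (c * B) fun τ _ => ?_).trans (by rw [card_univ, nsmul_eq_mul])
    refine (onec_class (Cop N) (Γ τ) (Nat.gcd c N) (Nat.gcd_pos_of_pos_left _ hc0) (e4 τ) (e5 τ) _ B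
      hB0 fun i => hB ▸ hper _ (by rw [onec_aeval, hfρ', map_zero]) _ (Nat.gcd_dvd_right _ _) i).trans
      ?_
    have : (Nat.gcd c N : ℝ) ≤ c := by exact_mod_cast Nat.gcd_le_left N hc0
    gcongr
  have b1 : B ≤ (N : ℝ) ^ (1 / 10 : ℝ) * (Real.log (21 * N) + (Y : ℝ) ^ 14) := by
    rw [hB]
    gcongr
  have b2 : (N : ℝ) ^ (1 - 1 / 10 : ℝ) * (cx f).logMahlerMeasure ≤
      Module.finrank ℚ L * (cx f).logMahlerMeasure := by
    have : (N.totient : ℝ) ≤ Module.finrank ℚ L := by exact_mod_cast e3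
    gcongr
    exact a1.trans this
  have b3 : (f.natDegree : ℝ) * (Fintype.card (K →+* ℂ) * (c * B)) ≤
      (f.natDegree * (Fintype.card (K →+* ℂ) * c) : ℕ) *
        ((N : ℝ) ^ (1 / 10 : ℝ) * (Real.log (21 * N) + (Y : ℝ) ^ 14)) := by
    push_cast
    rw [mul_assoc, mul_assoc]
    gcongr
  have b4 := mul_le_mul_of_nonneg_left hn3 (Nat.cast_nonneg (α := ℝ) f.natDegree)
  linarith

end Pool.Agent.MP_c1891a_nt.H43
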